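import Mathlib

open MeasureTheory Real Set
open scoped ENNReal

namespace Pool.Agent.Results.MP_27276c_an.Integral

theorem lintegral_Ioi_exp (g : ℝ → ℝ≥0∞) :
    ∫⁻ x in Ioi (0:ℝ), g x = ∫⁻ u : ℝ, ENNReal.ofReal (exp u) * g (exp u) := by
  have h := lintegral_image_eq_lintegral_abs_deriv_mul (s := univ) MeasurableSet.univ (f := exp)
    (f' := exp) (fun x _ => (hasDerivAt_exp x).hasDerivWithinAt) exp_injective.injOn g
  simpa [range_exp, abs_of_pos (exp_pos _)] using h

theorem lintegral_exp_neg_mul (c : ℝ) (hc : 0 < c) :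
    ∫⁻ t : ℝ, ENNReal.ofReal (exp t) * ENNReal.ofReal (exp (-(c * exp t))) =
      ENNReal.ofReal (1 / c) := by
  rw [← lintegral_Ioi_exp (fun x => ENNReal.ofReal (exp (-(c * x))))]
  rw [← ofReal_integral_eq_lintegral_ofReal]
  · congr 1
    have := integral_exp_mul_Ioi (a := -c) (by linarith) 0
    simp only [mul_zero, exp_zero] at this
    rw [show (fun x : ℝ => exp (-(c * x))) = fun x => exp (-c * x) by ext; ring_nf, this]
    field_simp
  · have := integrableOn_exp_mul_Ioi (a := -c) (by linarith) 0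
    rw [show (fun x : ℝ => exp (-(c * x))) = fun x => exp (-c * x) by ext; ring_nf]
    exact this
  · exact Filter.Eventually.of_forall fun x => (exp_pos _).le

theorem Gamma_lintegral (s : ℝ) (hs : 0 < s) :
    ∫⁻ u : ℝ, ENNReal.ofReal (exp (-exp u) * exp (s * u)) = ENNReal.ofReal (Gamma s) := by
  rw [Gamma_eq_integral hs, ofReal_integral_eq_lintegral_ofReal (GammaIntegral_convergent hs)]
  · rw [lintegral_Ioi_exp]
    apply lintegral_congr
    intro u
    rw [← ENNReal.ofReal_mul (exp_pos _).le]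
    congr 1
    rw [← exp_mul, ← exp_add, ← exp_add, ← exp_add]
    congr 1
    ring
  · filter_upwards [ae_restrict_mem measurableSet_Ioi] with x hx
    have : (0:ℝ) < x := hx
    positivity

/-- the logistic-type kernel -/
noncomputable def kap (α w : ℝ) : ℝ := exp (α * w) / (1 + exp w)

theorem kap_pos (α w : ℝ) : 0 < kap α w := by unfold kap; positivity

@[fun_prop]
theorem continuous_kap (α : ℝ) : Continuous (kap α) := by
  unfold kap
  apply Continuous.div
  · fun_prop
  · fun_prop
  · intro x; positivity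

theorem lintegral_kap (α : ℝ) (h0 : 0 < α) (h1 : α < 1) :
    ∫⁻ w : ℝ, ENNReal.ofReal (kap α w) = ENNReal.ofReal (π / sin (π * α)) := by
  rw [← Gamma_mul_Gamma_one_sub, ENNReal.ofReal_mul (Gamma_pos_of_pos h0).le,
    ← Gamma_lintegral α h0, ← Gamma_lintegral (1 - α) (by linarith)]
  rw [← lintegral_const_mul _ (by fun_prop)]
  have h2 : ∀ t : ℝ, (∫⁻ u : ℝ, ENNReal.ofReal (exp (-exp u) * exp (α * u))) *
      ENNReal.ofReal (exp (-exp t) * exp ((1 - α) * t)) =
      ∫⁻ w : ℝ, ENNReal.ofReal (exp t) * ENNReal.ofReal (exp (-((1 + exp w) * exp t))) *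
        ENNReal.ofReal (exp (α * w)) := by
    intro t
    rw [← lintegral_add_right_eq_self (fun u => ENNReal.ofReal (exp (-exp u) * exp (α * u))) t,
      ← lintegral_mul_const _ (by fun_prop)]
    apply lintegral_congr
    intro w
    rw [← ENNReal.ofReal_mul (by positivity), ← ENNReal.ofReal_mul (by positivity),
      ← ENNReal.ofReal_mul (by positivity)]
    congr 1
    rw [← exp_add, ← exp_add, ← exp_add, ← exp_add, ← exp_add, exp_add w t]
    congr 1
    ring
  simp_rw [h2]
  rw [lintegral_lintegral_swap]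
  · apply lintegral_congr
    intro w
    rw [lintegral_mul_const _ (by fun_prop), lintegral_exp_neg_mul _ (by positivity),
      ← ENNReal.ofReal_mul (by positivity), kap]
    congr 1
    ring
  · fun_prop

/-- the correlation function used in the strict Young inequality -/
noncomputable def hcor (κ : ℝ → ℝ≥0∞) (t : ℝ) : ℝ≥0∞ := ∫⁻ s : ℝ, κ s * κ (s - t) ^ (1 / 2 : ℝ)

theorem young_strict (κ : ℝ → ℝ≥0∞) (hκ : Measurable κ) (hκ1 : ∫⁻ w : ℝ, κ w = 1)
    {a b c m : ℝ} (ha : m ≤ a) (hb : m ≤ b) (hc : 2 * m ≤ c) (hm : 0 < m)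
    (habc : a + b + c = 1) (φ ψ : ℝ → ℝ≥0∞) (hφ : Measurable φ) (hψ : Measurable ψ) :
    ∫⁻ x : ℝ, ∫⁻ y : ℝ, φ x * ψ y * κ (x - y) ^ (b + c) ≤
      (∫⁻ t : ℝ, hcor κ t ^ (2:ℝ)) ^ m * (∫⁻ x, φ x ^ (1 / (a + b))) ^ (a + b) *
        (∫⁻ y, ψ y ^ (1 / (a + c))) ^ (a + c) := by
  have ha0 : 0 < a := by linarith
  have hb0 : 0 < b := by linarith
  have hc0 : 0 < c := by linarith
  set G : ℝ → ℝ≥0∞ := fun y => ψ y ^ (1 / (a + c)) with hG
  have hGm : Measurable G := hψ.pow_const _
  set N : ℝ≥0∞ := ∫⁻ y, G y with hN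
  set ρ : ℝ≥0∞ := ∫⁻ t : ℝ, hcor κ t ^ (2:ℝ) with hρ
  have hψG : ∀ y, ψ y = G y ^ (a + c) := by
    intro y
    rw [hG]
    simp only
    rw [← ENNReal.rpow_mul, one_div_mul_cancel (by linarith), ENNReal.rpow_one]
  set H : ℝ → ℝ≥0∞ := fun x => ∫⁻ y, ψ y * κ (x - y) ^ (b + c) with hH
  set S : ℝ → ℝ≥0∞ := fun x => ∫⁻ y, (G y * κ (x - y)) ^ (1 / 2 : ℝ) with hS
  set P : ℝ → ℝ≥0∞ := fun x => ∫⁻ y, G y * κ (x - y) with hP
  have hHm : Measurable H := by
    apply Measurable.lintegral_prod_right'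
      (f := fun z : ℝ × ℝ => ψ z.2 * κ (z.1 - z.2) ^ (b + c))
    fun_prop
  have hSm : Measurable S := by
    apply Measurable.lintegral_prod_right'
      (f := fun z : ℝ × ℝ => (G z.2 * κ (z.1 - z.2)) ^ (1 / 2 : ℝ))
    fun_prop
  have hPm : Measurable P := by
    apply Measurable.lintegral_prod_right' (f := fun z : ℝ × ℝ => G z.2 * κ (z.1 - z.2))
    fun_prop
  -- Hoelder in y
  have hHle : ∀ x, H x ≤ P x ^ c * S x ^ (2 * m) * N ^ (a - m) := by
    intro x
    have hk : ∫⁻ y, κ (x - y) = 1 := by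
      rw [lintegral_sub_left_eq_self κ x, hκ1]
    have h1 := ENNReal.lintegral_prod_norm_pow_le (μ := (volume : Measure ℝ)) (Finset.univ : Finset (Fin 4))
      (f := ![fun y => G y * κ (x - y), fun y => (G y * κ (x - y)) ^ (1 / 2 : ℝ), G,
        fun y => κ (x - y)]) (p := ![c, 2 * m, a - m, b - m]) ?_ ?_ ?_
    · simp only [Fin.prod_univ_four, Matrix.cons_val_zero, Matrix.cons_val_one, Matrix.cons_val] at h1
      rw [hk, ENNReal.one_rpow, mul_one] at h1
      refine le_trans (le_of_eq ?_) h1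
      apply lintegral_congr
      intro y
      rw [hψG y, ← ENNReal.rpow_mul (G y * κ (x - y)) (1 / 2) (2 * m),
        show (1 / 2 : ℝ) * (2 * m) = m by ring]
      rw [ENNReal.mul_rpow_of_nonneg _ _ hc0.le, ENNReal.mul_rpow_of_nonneg _ _ hm.le]
      have e1 : G y ^ (a + c) = G y ^ c * G y ^ m * G y ^ (a - m) := by
        rw [← ENNReal.rpow_add_of_nonneg _ _ hc0.le hm.le,
          ← ENNReal.rpow_add_of_nonneg _ _ (by linarith) (by linarith)]
        congr 1
        ring
      have e2 : κ (x - y) ^ (b + c) = κ (x - y) ^ c * κ (x - y) ^ m * κ (x - y) ^ (b - m) := by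
        rw [← ENNReal.rpow_add_of_nonneg _ _ hc0.le hm.le,
          ← ENNReal.rpow_add_of_nonneg _ _ (by linarith) (by linarith)]
        congr 1
        ring
      rw [e1, e2]
      ring
    · intro i _
      fin_cases i <;> simp <;> fun_prop
    · simp [Fin.sum_univ_four]
      linarith
    · intro i _
      fin_cases i <;> simp <;> linarith
  -- the averaged estimate for S
  have hSav : ∀ y, ∫⁻ x, κ (x - y) * S x ≤ N ^ (1 / 2 : ℝ) * ρ ^ (1 / 2 : ℝ) := by
    intro y
    have e1 : ∫⁻ x, κ (x - y) * S x = ∫⁻ z, G z ^ (1 / 2 : ℝ) * hcor κ (z - y) := by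
      calc ∫⁻ x, κ (x - y) * S x
          = ∫⁻ x, ∫⁻ z, κ (x - y) * (G z * κ (x - z)) ^ (1 / 2 : ℝ) := by
            apply lintegral_congr
            intro x
            rw [hS]
            simp only
            rw [lintegral_const_mul _ (by fun_prop)]
        _ = ∫⁻ z, ∫⁻ x, κ (x - y) * (G z * κ (x - z)) ^ (1 / 2 : ℝ) := by
            rw [lintegral_lintegral_swap]
            fun_prop
        _ = ∫⁻ z, G z ^ (1 / 2 : ℝ) * hcor κ (z - y) := by
            apply lintegral_congr
            intro z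
            rw [hcor, ← lintegral_const_mul _ (by fun_prop)]
            rw [← lintegral_add_right_eq_self (fun x => κ (x - y) * (G z * κ (x - z)) ^ (1 / 2 : ℝ)) y]
            apply lintegral_congr
            intro s
            rw [ENNReal.mul_rpow_of_nonneg _ _ (by norm_num)]
            rw [show s + y - y = s by ring, show s + y - z = s - (z - y) by ring]
            ring
    rw [e1]
    have hcm : Measurable (fun t => hcor κ t) := by
      apply Measurable.lintegral_prod_right' (f := fun z : ℝ × ℝ => κ z.2 * κ (z.2 - z.1) ^ (1 / 2 : ℝ))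
      fun_prop
    have h2 := ENNReal.lintegral_mul_norm_pow_le (μ := (volume : Measure ℝ)) (f := G)
      (g := fun z => hcor κ (z - y) ^ (2:ℝ)) (p := 1 / 2) (q := 1 / 2) (by fun_prop) (by fun_prop)
      (by norm_num) (by norm_num) (by norm_num)
    have e2 : ∫⁻ z, hcor κ (z - y) ^ (2:ℝ) = ρ := by
      rw [lintegral_sub_right_eq_self (fun z => hcor κ z ^ (2:ℝ)) y]
    rw [e2] at h2
    refine le_trans (le_of_eq ?_) h2
    apply lintegral_congr
    intro z
    rw [← ENNReal.rpow_mul (hcor κ (z - y)) 2 (1 / 2), mul_one_div_cancel two_ne_zero,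
      ENNReal.rpow_one]
  -- the p'-norm of H
  have hHnorm : ∫⁻ x, H x ^ (1 / c) ≤ N ^ ((a + c) / c) * ρ ^ (m / c) := by
    have h3 : ∀ x, H x ^ (1 / c) ≤ N ^ ((a - m) / c) * (P x * S x ^ (2 * m / c)) := by
      intro x
      have := ENNReal.rpow_le_rpow (hHle x) (z := 1 / c) (by positivity)
      refine this.trans (le_of_eq ?_)
      rw [ENNReal.mul_rpow_of_nonneg _ _ (by positivity), ENNReal.mul_rpow_of_nonneg _ _ (by positivity),
        ← ENNReal.rpow_mul, ← ENNReal.rpow_mul, ← ENNReal.rpow_mul, mul_one_div_cancel hc0.ne',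
        ENNReal.rpow_one, mul_one_div, mul_one_div]
      ring
    have h4 : ∫⁻ x, P x * S x ^ (2 * m / c) ≤ N * (N ^ (1 / 2 : ℝ) * ρ ^ (1 / 2 : ℝ)) ^ (2 * m / c) := by
      have hmc : 2 * m / c ≤ 1 := by rw [div_le_one hc0]; exact hc
      have hmc0 : 0 ≤ 2 * m / c := by positivity
      calc ∫⁻ x, P x * S x ^ (2 * m / c)
          = ∫⁻ x, ∫⁻ y, G y * κ (x - y) * S x ^ (2 * m / c) := by
            apply lintegral_congr
            intro x
            rw [hP]
            simp only
            rw [← lintegral_mul_const _ (by fun_prop)]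
        _ = ∫⁻ y, ∫⁻ x, G y * κ (x - y) * S x ^ (2 * m / c) := by
            rw [lintegral_lintegral_swap]
            fun_prop
        _ ≤ ∫⁻ y, G y * (N ^ (1 / 2 : ℝ) * ρ ^ (1 / 2 : ℝ)) ^ (2 * m / c) := by
            apply lintegral_mono
            intro y
            simp only
            simp_rw [mul_assoc]
            rw [lintegral_const_mul _ (by fun_prop)]
            gcongr
            have h5 := ENNReal.lintegral_mul_norm_pow_le (μ := (volume : Measure ℝ))
              (f := fun x => κ (x - y)) (g := fun x => κ (x - y) * S x)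
              (p := 1 - 2 * m / c) (q := 2 * m / c) (by fun_prop) (by fun_prop)
              (by linarith) hmc0 (by ring)
            rw [lintegral_sub_right_eq_self κ y, hκ1, ENNReal.one_rpow, one_mul] at h5
            refine le_trans (le_of_eq ?_) (h5.trans (ENNReal.rpow_le_rpow (hSav y) hmc0))
            apply lintegral_congr
            intro x
            rw [ENNReal.mul_rpow_of_nonneg _ _ hmc0, ← mul_assoc,
              ← ENNReal.rpow_add_of_nonneg _ _ (by linarith) hmc0]
            norm_num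
        _ = _ := by
            rw [lintegral_mul_const _ hGm]
    calc ∫⁻ x, H x ^ (1 / c) ≤ ∫⁻ x, N ^ ((a - m) / c) * (P x * S x ^ (2 * m / c)) :=
          lintegral_mono h3
      _ = N ^ ((a - m) / c) * ∫⁻ x, P x * S x ^ (2 * m / c) := by
          rw [lintegral_const_mul _ (by fun_prop)]
      _ ≤ N ^ ((a - m) / c) * (N * (N ^ (1 / 2 : ℝ) * ρ ^ (1 / 2 : ℝ)) ^ (2 * m / c)) := by
          gcongr
      _ = _ := by
          rw [ENNReal.mul_rpow_of_nonneg _ _ (by positivity), ← ENNReal.rpow_mul,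
            ← ENNReal.rpow_mul]
          have e3 : N ^ ((a + c) / c) = N ^ ((a - m) / c) * N ^ (1:ℝ) * N ^ (1 / 2 * (2 * m / c)) := by
            rw [← ENNReal.rpow_add_of_nonneg _ _ (div_nonneg (by linarith) hc0.le) (by norm_num),
              ← ENNReal.rpow_add_of_nonneg _ _ (add_nonneg (div_nonneg (by linarith) hc0.le)
              (by norm_num)) (by positivity)]
            congr 1
            field_simp
            ring
          rw [e3, ENNReal.rpow_one, show 1 / 2 * (2 * m / c) = m / c by ring]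
          ring
  have hconj : (1 / (a + b)).HolderConjugate (1 / c) := by
    rw [Real.holderConjugate_iff]
    refine ⟨?_, ?_⟩
    · rw [one_div, one_lt_inv₀ (by linarith)]
      linarith
    · simp only [one_div, inv_inv]
      linarith
  calc ∫⁻ x : ℝ, ∫⁻ y : ℝ, φ x * ψ y * κ (x - y) ^ (b + c)
      = ∫⁻ x, (φ * H) x := by
        apply lintegral_congr
        intro x
        rw [Pi.mul_apply, hH]
        simp only
        rw [← lintegral_const_mul _ (by fun_prop)]
        simp_rw [mul_assoc]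
    _ ≤ (∫⁻ x, φ x ^ (1 / (a + b))) ^ (1 / (1 / (a + b))) * (∫⁻ x, H x ^ (1 / c)) ^ (1 / (1 / c)) :=
        ENNReal.lintegral_mul_le_Lp_mul_Lq _ hconj (by fun_prop) (by fun_prop)
    _ ≤ (∫⁻ x, φ x ^ (1 / (a + b))) ^ (a + b) * (N ^ ((a + c) / c) * ρ ^ (m / c)) ^ c := by
        rw [one_div_one_div, one_div_one_div]
        gcongr
    _ = _ := by
        rw [ENNReal.mul_rpow_of_nonneg _ _ hc0.le, ← ENNReal.rpow_mul, ← ENNReal.rpow_mul,
          div_mul_cancel₀ _ hc0.ne', div_mul_cancel₀ _ hc0.ne']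
        ring

/-- strict log-concavity of the kernel at unequal points -/
theorem kap_mul_lt (α s s' t : ℝ) (h : s ≠ s') :
    kap α (s - t) * kap α (s' - t) < kap α ((s + s') / 2 - t) ^ 2 := by
  unfold kap
  rw [div_mul_div_comm, div_pow]
  have h1 : exp (α * (s - t)) * exp (α * (s' - t)) = exp (α * ((s + s') / 2 - t)) ^ 2 := by
    rw [← exp_add, ← exp_nat_mul]
    congr 1
    push_cast
    ring
  rw [h1]
  apply div_lt_div_of_pos_left (by positivity) (by positivity)
  set A := exp ((s - t) / 2) with hA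
  set B := exp ((s' - t) / 2) with hB
  have hAB : A ≠ B := by
    intro h2
    have := exp_injective h2
    apply h
    linarith
  have e1 : exp (s - t) = A ^ 2 := by
    rw [hA, ← exp_nat_mul]; congr 1; push_cast; ring
  have e2 : exp (s' - t) = B ^ 2 := by
    rw [hB, ← exp_nat_mul]; congr 1; push_cast; ring
  have e3 : exp ((s + s') / 2 - t) = A * B := by
    rw [hA, hB, ← exp_add]; congr 1; ring
  rw [e1, e2, e3]
  have : 0 < (A - B) ^ 2 := by
    have : A - B ≠ 0 := sub_ne_zero.mpr hAB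
    positivity
  nlinarith

theorem hcor_lt_one (κ : ℝ → ℝ≥0∞) (hκ : Measurable κ) (hκ1 : ∫⁻ w : ℝ, κ w = 1)
    (hpos : ∀ w, 0 < κ w) (hfin : ∀ w, κ w ≠ ∞)
    (hlc : ∀ s s' t, s ≠ s' → κ (s - t) * κ (s' - t) < κ ((s + s') / 2 - t) ^ (2:ℝ)) :
    ∫⁻ t : ℝ, hcor κ t ^ (2:ℝ) < 1 := by
  have e1 : ∫⁻ t : ℝ, hcor κ t ^ (2:ℝ) =
      ∫⁻ s, κ s * ∫⁻ s', κ s' * ∫⁻ t, (κ (s - t) * κ (s' - t)) ^ (1 / 2 : ℝ) := by
    calc ∫⁻ t : ℝ, hcor κ t ^ (2:ℝ)
        = ∫⁻ t, ∫⁻ s, ∫⁻ s', κ s * (κ s' * (κ (s - t) * κ (s' - t)) ^ (1 / 2 : ℝ)) := by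
          apply lintegral_congr
          intro t
          rw [ENNReal.rpow_two, sq]
          nth_rewrite 1 [hcor]
          rw [← lintegral_mul_const _ (by fun_prop)]
          apply lintegral_congr
          intro s
          rw [hcor, ← lintegral_const_mul _ (by fun_prop)]
          apply lintegral_congr
          intro s'
          rw [ENNReal.mul_rpow_of_nonneg _ _ (by norm_num)]
          ring
      _ = ∫⁻ s, ∫⁻ t, ∫⁻ s', κ s * (κ s' * (κ (s - t) * κ (s' - t)) ^ (1 / 2 : ℝ)) := by
          rw [lintegral_lintegral_swap]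
          apply Measurable.aemeasurable
          apply Measurable.lintegral_prod_right'
            (f := fun z : (ℝ × ℝ) × ℝ => κ z.1.2 * (κ z.2 * (κ (z.1.2 - z.1.1) * κ (z.2 - z.1.1)) ^ (1 / 2 : ℝ)))
          fun_prop
      _ = ∫⁻ s, ∫⁻ s', ∫⁻ t, κ s * (κ s' * (κ (s - t) * κ (s' - t)) ^ (1 / 2 : ℝ)) := by
          apply lintegral_congr
          intro s
          rw [lintegral_lintegral_swap]
          fun_prop
      _ = _ := by
          apply lintegral_congr
          intro s
          have hm1 : Measurable (fun s' => ∫⁻ t, (κ (s - t) * κ (s' - t)) ^ (1 / 2 : ℝ)) := by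
            apply Measurable.lintegral_prod_right'
              (f := fun z : ℝ × ℝ => (κ (s - z.2) * κ (z.1 - z.2)) ^ (1 / 2 : ℝ))
            fun_prop
          rw [← lintegral_const_mul _ (by fun_prop)]
          apply lintegral_congr
          intro s'
          rw [lintegral_const_mul _ (by fun_prop), lintegral_const_mul _ (by fun_prop)]
  rw [e1]
  have hQ : ∀ s s', s ≠ s' → ∫⁻ t, (κ (s - t) * κ (s' - t)) ^ (1 / 2 : ℝ) < 1 := by
    intro s s' h
    have h1 : ∀ t, (κ (s - t) * κ (s' - t)) ^ (1 / 2 : ℝ) < κ ((s + s') / 2 - t) := by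
      intro t
      have := ENNReal.rpow_lt_rpow (hlc s s' t h) (z := 1 / 2) (by norm_num)
      rwa [← ENNReal.rpow_mul _ 2 (1 / 2), mul_one_div_cancel two_ne_zero, ENNReal.rpow_one] at this
    have h2 : ∫⁻ t, κ ((s + s') / 2 - t) = 1 := by
      rw [lintegral_sub_left_eq_self κ, hκ1]
    calc ∫⁻ t, (κ (s - t) * κ (s' - t)) ^ (1 / 2 : ℝ) < ∫⁻ t, κ ((s + s') / 2 - t) := by
          apply lintegral_strict_mono (NeZero.ne _) (by fun_prop)
          · apply ne_top_of_le_ne_top _ (lintegral_mono (fun t => (h1 t).le))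
            rw [h2]
            exact ENNReal.one_ne_top
          · exact Filter.Eventually.of_forall h1
      _ = 1 := h2
  have hR : ∀ s, ∫⁻ s', κ s' * ∫⁻ t, (κ (s - t) * κ (s' - t)) ^ (1 / 2 : ℝ) < 1 := by
    intro s
    have h0 : ∀ᵐ s' : ℝ, s' ≠ s := by
      rw [ae_iff]
      simp
    have h1 : ∀ᵐ s' : ℝ, κ s' * ∫⁻ t, (κ (s - t) * κ (s' - t)) ^ (1 / 2 : ℝ) < κ s' := by
      filter_upwards [h0] with s' hs'
      calc κ s' * ∫⁻ t, (κ (s - t) * κ (s' - t)) ^ (1 / 2 : ℝ) < κ s' * 1 :=
            (ENNReal.mul_lt_mul_iff_right (hpos s').ne' (hfin s')).mpr (hQ s s' hs'.symm)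
        _ = κ s' := mul_one _
    rw [← hκ1]
    apply lintegral_strict_mono (NeZero.ne _) (by fun_prop) _ h1
    apply ne_top_of_le_ne_top _ (lintegral_mono_ae (h1.mono fun _ h => h.le))
    rw [hκ1]
    exact ENNReal.one_ne_top
  have h1 : ∀ s : ℝ, κ s * ∫⁻ s', κ s' * ∫⁻ t, (κ (s - t) * κ (s' - t)) ^ (1 / 2 : ℝ) < κ s := by
    intro s
    calc κ s * ∫⁻ s', κ s' * ∫⁻ t, (κ (s - t) * κ (s' - t)) ^ (1 / 2 : ℝ) < κ s * 1 :=
          (ENNReal.mul_lt_mul_iff_right (hpos s).ne' (hfin s)).mpr (hR s)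
      _ = κ s := mul_one _
  rw [← hκ1]
  apply lintegral_strict_mono (NeZero.ne _) (by fun_prop) _ (Filter.Eventually.of_forall h1)
  apply ne_top_of_le_ne_top _ (lintegral_mono (fun s => (h1 s).le))
  rw [hκ1]
  exact ENNReal.one_ne_top

/-- the exponent `λ = 2 - 1/p - 1/q` -/
noncomputable def lam (p q : ℝ) : ℝ := 2 - 1 / p - 1 / q

/-- the constant `K(p,q) = π^λ csc^λ(π(q-1)/(λ q))` -/
noncomputable def K (p q : ℝ) : ℝ :=
  π ^ lam p q * (1 / sin (π * (q - 1) / (lam p q * q))) ^ lam p q

/-- The constant `K(p,q)` is never best possible in the integral inequality (I) when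
`1/p + 1/q > 1`: a smaller constant works for all nonnegative measurable functions. -/
theorem result (p q : ℝ) (hp : 1 < p) (hq : 1 < q) (hpq : 1 < 1 / p + 1 / q) :
    ∃ C : ℝ, C < K p q ∧ ∀ f g : ℝ → ℝ≥0∞, Measurable f → Measurable g →
      ∫⁻ x in Ioi (0:ℝ), ∫⁻ y in Ioi (0:ℝ), f x * g y * ENNReal.ofReal ((x + y) ^ (-lam p q)) ≤
        ENNReal.ofReal C * (∫⁻ x in Ioi (0:ℝ), f x ^ p) ^ (1 / p) *
          (∫⁻ y in Ioi (0:ℝ), g y ^ q) ^ (1 / q) := by
  have hp0 : 0 < p := by linarith
  have hq0 : 0 < q := by linarith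
  set a : ℝ := 1 / p + 1 / q - 1 with ha
  set b : ℝ := 1 - 1 / q with hb
  set c : ℝ := 1 - 1 / p with hc
  have hp1 : 1 / p < 1 := by rw [div_lt_one hp0]; exact hp
  have hq1 : 1 / q < 1 := by rw [div_lt_one hq0]; exact hq
  have ha0 : 0 < a := by linarith
  have hb0 : 0 < b := by linarith
  have hc0 : 0 < c := by linarith
  have hlam : lam p q = b + c := by rw [lam, hb, hc]; ring
  have hl0 : 0 < lam p q := by linarith
  set α : ℝ := c / lam p q with hα
  have hα0 : 0 < α := by positivity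
  have hα1 : α < 1 := by rw [hα, div_lt_one hl0, hlam]; linarith
  set L : ℝ := π / sin (π * α) with hL
  have hsin : 0 < sin (π * α) := by
    apply sin_pos_of_pos_of_lt_pi
    · positivity
    · have := pi_pos
      nlinarith
  have hL0 : 0 < L := by positivity
  have hKL : K p q = L ^ lam p q := by
    have e1 : π * (q - 1) / (lam p q * q) = π - π * α := by
      rw [hα, hc]
      have : lam p q * (1 - α) = 1 - 1 / q := by
        rw [hα, mul_sub, mul_one, mul_div_cancel₀ _ hl0.ne', hc, lam]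
        ring
      field_simp
      rw [lam]
      field_simp
      ring
    rw [K, e1, sin_pi_sub, ← mul_rpow pi_pos.le (by positivity), hL]
    congr 1
    ring
  set κ : ℝ → ℝ≥0∞ := fun w => ENNReal.ofReal (kap α w / L) with hκ
  have hκm : Measurable κ := by
    rw [hκ]
    fun_prop
  have hκ1 : ∫⁻ w : ℝ, κ w = 1 := by
    rw [hκ]
    simp_rw [div_eq_mul_inv]
    simp_rw [ENNReal.ofReal_mul (kap_pos α _).le]
    rw [lintegral_mul_const _ (by fun_prop), lintegral_kap α hα0 hα1, ← hL,
      ← ENNReal.ofReal_mul hL0.le, mul_inv_cancel₀ hL0.ne', ENNReal.ofReal_one]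
  have hρ := hcor_lt_one κ hκm hκ1 ?_ ?_ ?_
  rotate_left
  · intro w
    rw [hκ]
    simp only [ENNReal.ofReal_pos]
    have := kap_pos α w
    positivity
  · intro w
    exact ENNReal.ofReal_ne_top
  · intro s s' t h
    rw [hκ]
    simp only
    rw [← ENNReal.ofReal_mul (by have := kap_pos α (s - t); positivity), ENNReal.rpow_two,
      ← ENNReal.ofReal_pow (by have := kap_pos α ((s + s') / 2 - t); positivity)]
    rw [ENNReal.ofReal_lt_ofReal_iff (by have := kap_pos α ((s + s') / 2 - t); positivity)]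
    have := kap_mul_lt α s s' t h
    rw [div_mul_div_comm, div_pow, ← sq]
    gcongr
  set ρ : ℝ≥0∞ := ∫⁻ t : ℝ, hcor κ t ^ (2:ℝ) with hρdef
  set m : ℝ := min a (min b (c / 2)) with hm
  have hm0 : 0 < m := by rw [hm]; positivity
  have hma : m ≤ a := min_le_left _ _
  have hmb : m ≤ b := (min_le_right _ _).trans (min_le_left _ _)
  have hmc : 2 * m ≤ c := by
    have : m ≤ c / 2 := (min_le_right _ _).trans (min_le_right _ _)
    linarith
  have hρm : ρ ^ m < 1 := ENNReal.rpow_lt_one hρ hm0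
  refine ⟨L ^ lam p q * (ρ ^ m).toReal, ?_, ?_⟩
  · rw [hKL]
    have h1 : (ρ ^ m).toReal < 1 := by
      rw [← ENNReal.toReal_one]
      exact (ENNReal.toReal_lt_toReal (hρm.trans ENNReal.one_lt_top).ne ENNReal.one_ne_top).mpr hρm
    have h2 : 0 < L ^ lam p q := by positivity
    nlinarith
  · intro f g hf hg
    set φ : ℝ → ℝ≥0∞ := fun u => f (exp u) * ENNReal.ofReal (exp (u / p)) with hφ
    set ψ : ℝ → ℝ≥0∞ := fun v => g (exp v) * ENNReal.ofReal (exp (v / q)) with hψ
    have hY := young_strict κ hκm hκ1 hma hmb hmc hm0 (by rw [ha, hb, hc]; ring) φ ψ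
      (by rw [hφ]; fun_prop) (by rw [hψ]; fun_prop)
    have hab : a + b = 1 / p := by rw [ha, hb]; ring
    have hac : a + c = 1 / q := by rw [ha, hc]; ring
    rw [hab, hac, one_div_one_div, one_div_one_div, ← hlam] at hY
    have hnf : ∫⁻ x, φ x ^ p = ∫⁻ x in Ioi (0:ℝ), f x ^ p := by
      rw [lintegral_Ioi_exp]
      apply lintegral_congr
      intro u
      rw [hφ]
      simp only
      rw [ENNReal.mul_rpow_of_nonneg _ _ hp0.le, ENNReal.ofReal_rpow_of_pos (exp_pos _),
        ← exp_mul, div_mul_cancel₀ _ hp0.ne', mul_comm]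
    have hng : ∫⁻ x, ψ x ^ q = ∫⁻ x in Ioi (0:ℝ), g x ^ q := by
      rw [lintegral_Ioi_exp]
      apply lintegral_congr
      intro u
      rw [hψ]
      simp only
      rw [ENNReal.mul_rpow_of_nonneg _ _ hq0.le, ENNReal.ofReal_rpow_of_pos (exp_pos _),
        ← exp_mul, div_mul_cancel₀ _ hq0.ne', mul_comm]
    rw [hnf, hng] at hY
    have hlhs : ∫⁻ x in Ioi (0:ℝ), ∫⁻ y in Ioi (0:ℝ), f x * g y * ENNReal.ofReal ((x + y) ^ (-lam p q)) =
        ENNReal.ofReal (L ^ lam p q) * ∫⁻ x, ∫⁻ y, φ x * ψ y * κ (x - y) ^ lam p q := by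
      rw [lintegral_Ioi_exp]
      rw [← lintegral_const_mul _ ?_]
      · apply lintegral_congr
        intro u
        rw [lintegral_Ioi_exp]
        rw [← lintegral_const_mul _ (by fun_prop), ← lintegral_const_mul _ (by fun_prop)]
        apply lintegral_congr
        intro v
        rw [hφ, hψ, hκ]
        simp only
        have key : ENNReal.ofReal (exp u) * (ENNReal.ofReal (exp v) *
            ENNReal.ofReal ((exp u + exp v) ^ (-lam p q))) =
            ENNReal.ofReal (L ^ lam p q) * (ENNReal.ofReal (exp (u / p)) *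
              (ENNReal.ofReal (exp (v / q)) * ENNReal.ofReal (kap α (u - v) / L) ^ lam p q)) := by
          have hk := kap_pos α (u - v)
          rw [ENNReal.ofReal_rpow_of_pos (by positivity), ← ENNReal.ofReal_mul (by positivity),
            ← ENNReal.ofReal_mul (by positivity), ← ENNReal.ofReal_mul (by positivity),
            ← ENNReal.ofReal_mul (by positivity), ← ENNReal.ofReal_mul (by positivity)]
          congr 1
          rw [div_rpow hk.le hL0.le]
          have h3 : exp u + exp v = exp v * (1 + exp (u - v)) := by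
            rw [mul_add, mul_one, ← exp_add]
            ring_nf
          rw [h3, mul_rpow (exp_pos _).le (by positivity), kap,
            div_rpow (exp_pos _).le (by positivity), ← exp_mul, ← exp_mul]
          have h4 : α * (u - v) * lam p q = c * (u - v) := by
            rw [hα]
            field_simp
          rw [h4, rpow_neg (by positivity)]
          have h5 : exp u * (exp v * (exp (v * -lam p q) * ((1 + exp (u - v)) ^ lam p q)⁻¹)) =
              exp (u + v - v * lam p q) * ((1 + exp (u - v)) ^ lam p q)⁻¹ := by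
            rw [← mul_assoc, ← mul_assoc, ← exp_add, ← exp_add]
            ring_nf
          have h6 : L ^ lam p q * (exp (u / p) * (exp (v / q) * (exp (c * (u - v)) /
              (1 + exp (u - v)) ^ lam p q / L ^ lam p q))) =
              exp (u / p + v / q + c * (u - v)) * ((1 + exp (u - v)) ^ lam p q)⁻¹ := by
            have hLp : L ^ lam p q ≠ 0 := by positivity
            rw [exp_add, exp_add]
            field_simp
          rw [h5, h6]
          congr 2
          rw [lam, hc]
          field_simp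
          ring
        calc ENNReal.ofReal (exp u) * (ENNReal.ofReal (exp v) * (f (exp u) * g (exp v) *
              ENNReal.ofReal ((exp u + exp v) ^ (-lam p q))))
            = f (exp u) * g (exp v) * (ENNReal.ofReal (exp u) * (ENNReal.ofReal (exp v) *
              ENNReal.ofReal ((exp u + exp v) ^ (-lam p q)))) := by ring
          _ = _ := by rw [key]; ring
      · apply Measurable.lintegral_prod_right'
          (f := fun z : ℝ × ℝ => φ z.1 * ψ z.2 * κ (z.1 - z.2) ^ lam p q)
        rw [hφ, hψ]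
        fun_prop
    rw [hlhs, ENNReal.ofReal_mul (by positivity), ENNReal.ofReal_toReal (hρm.trans ENNReal.one_lt_top).ne,
      mul_assoc, mul_assoc]
    gcongr
    rw [← mul_assoc]
    exact hY

end Pool.Agent.Results.MP_27276c_an.Integral
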